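import Pool.Agent.Helper10.FG.Doubling

/-!
MP_548a49_al, Q1: if `H` is a subgroup of even index of a finite group `G` then the factorization
`(2 |H|, |G : H| / 2)` of `|G|` is realised; with a refinement.
-/

namespace Pool.Agent.Results.MP_548a49_al.EvenIndexDoubling

open Pool.Agent.Helper10.FG

theorem result {G : Type*} [Group G] [Finite G] (H : Subgroup G) (hH : Even H.index) :
    Realised G (2 * Nat.card H) (H.index / 2) ∧
    ∀ t : G, Even (H.relIndex (H ⊔ Subgroup.zpowers t)) →
      ∀ K : Subgroup G, K ≤ H → (∀ k ∈ K, t⁻¹ * k * t ∈ H) →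
        ∀ v w : ℕ, v * w = Nat.card K → Realised K v w →
          Realised G (2 * (Nat.card H / v)) (v * (H.index / 2)) :=
  ⟨(doubling_simple H hH).symm, fun t ht K hK hKt v w hvw hr =>
    (doubling H t ht K hK hKt v w hvw hr).symm⟩

end Pool.Agent.Results.MP_548a49_al.EvenIndexDoubling
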