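import Pool.Agent.Helper92.FG.Torus

/-!
MP_548a49_al, Q1 for the groups `PSL(2, q)`, `q` an odd prime, and all factorizations `(a, b)` with
`(q - 1) / 2` dividing `a` or `b`; these are all factorizations when `(q - 1) / 2` is prime.
-/

namespace Pool.Agent.Results.MP_548a49_al.PSLTorus

open Pool.Agent.Helper10.FG

theorem result (q : ℕ) (hq : q.Prime) (h2 : q ≠ 2) (a b : ℕ)
    (hab : a * b = Nat.card (Matrix.ProjectiveSpecialLinearGroup (Fin 2) (ZMod q)))
    (h : (q - 1) / 2 ∣ a ∨ (q - 1) / 2 ∣ b) :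
    Realised (Matrix.ProjectiveSpecialLinearGroup (Fin 2) (ZMod q)) a b := by
  have : Fact q.Prime := ⟨hq⟩
  exact Pool.Agent.Helper92.FG.main q h2 a b hab h

end Pool.Agent.Results.MP_548a49_al.PSLTorus
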