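import Pool.Agent.Helper10.FG.PSL

/-!
MP_548a49_al, Q1 for the simple groups `PSL(2, q)`, `q` and `(q + 1) / 2` primes.
-/

namespace Pool.Agent.Results.MP_548a49_al.PSLTwoQ

open Pool.Agent.Helper10.FG

theorem result (q : ℕ) (hq : q.Prime) (hp : ((q + 1) / 2).Prime) (a b : ℕ)
    (hab : a * b = Nat.card (Matrix.ProjectiveSpecialLinearGroup (Fin 2) (ZMod q))) :
    Realised (Matrix.ProjectiveSpecialLinearGroup (Fin 2) (ZMod q)) a b := by
  have : Fact q.Prime := ⟨hq⟩
  exact psl_main q hp a b hab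

end Pool.Agent.Results.MP_548a49_al.PSLTwoQ
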