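import Pool.Agent.Helper71.SF.Final

/-!
MP_548a49_al, Q1: factorizations of the symmetric and alternating groups in which one factor has small
exponents: it is divisible neither by `2 ^ 8` nor by `3 ^ 5` nor by `p ^ 3` for a prime `p ≥ 5`.
-/

namespace Pool.Agent.Results.MP_548a49_al.SymAltFactors

open Pool.Agent.Helper10.FG Pool.Agent.Helper71.SF Equiv

theorem result (n : ℕ) (H : Subgroup (Perm (Fin n))) (hH : alternatingGroup (Fin n) ≤ H) (a b : ℕ)
    (hab : a * b = Nat.card H)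
    (h : (¬ 2 ^ 8 ∣ a ∧ ¬ 3 ^ 5 ∣ a ∧ ∀ p : ℕ, p.Prime → 5 ≤ p → ¬ p ^ 3 ∣ a) ∨
      (¬ 2 ^ 8 ∣ b ∧ ¬ 3 ^ 5 ∣ b ∧ ∀ p : ℕ, p.Prime → 5 ≤ p → ¬ p ^ 3 ∣ b)) :
    Realised H a b := by
  have key : ∀ (e : Bool) (c : ℕ), ¬ 2 ^ 8 ∣ c → ¬ 2 ^ 9 ∣ cc e * c := by
    intro e c hc hd
    apply hc
    rcases cc_or e with h1 | h1
    · rw [h1, one_mul] at hd
      exact (pow_dvd_pow 2 (by norm_num)).trans hd
    · rw [h1] at hd
      have h2 : 2 * 2 ^ 8 ∣ 2 * c := dvd_trans (by norm_num) hd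
      exact Nat.dvd_of_mul_dvd_mul_left (by norm_num) h2
  have hor : ∃ e : Bool, Gr e (Fin n) = H := by
    by_cases hA : H ≤ alternatingGroup (Fin n)
    · exact ⟨true, by rw [le_antisymm hA hH]; simp [Gr]⟩
    · refine ⟨false, ?_⟩
      obtain ⟨g, hg, hg'⟩ := SetLike.not_le_iff_exists.1 hA
      have hgs : Perm.sign g = -1 := by
        rcases Int.units_eq_one_or (Perm.sign g) with h1 | h1
        · exact absurd (Perm.mem_alternatingGroup.2 h1) hg'
        · exact h1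
      have htop : H = ⊤ := by
        rw [Subgroup.eq_top_iff']
        intro x
        rcases Int.units_eq_one_or (Perm.sign x) with h1 | h1
        · exact hH (Perm.mem_alternatingGroup.2 h1)
        · have h2 : g⁻¹ * x ∈ H := hH (Perm.mem_alternatingGroup.2 (by
            rw [Perm.sign_mul, Perm.sign_inv, hgs, h1]; rfl))
          have h3 := H.mul_mem hg h2
          rwa [mul_inv_cancel_left] at h3
      rw [htop]; simp [Gr]
  obtain ⟨e, rfl⟩ := hor
  apply realised_any e n a b hab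
  rcases h with ⟨h1, h3, h4⟩ | ⟨h1, h3, h4⟩
  · exact Or.inr (Or.inr (Or.inr (Or.inl ⟨key e a h1, h3, h4⟩)))
  · exact Or.inr (Or.inr (Or.inr (Or.inr ⟨key e b h1, h3, h4⟩)))

end Pool.Agent.Results.MP_548a49_al.SymAltFactors
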